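import Pool.Agent.H78.STN.Stmts

/-!
# Board `stn`, row CBD: the coefficients
-/

set_option autoImplicit false

open Polynomial

namespace Pool.STN

/-- coefficientwise domination -/
def cbdDom (A B : ℤ[X]) : Prop := ∀ j, |A.coeff j| ≤ B.coeff j

lemma cbd_mul {A B A' B' : ℤ[X]} (h : cbdDom A B) (h' : cbdDom A' B') :
    cbdDom (A * A') (B * B') := by
  intro j
  rw [coeff_mul, coeff_mul]
  refine (Finset.abs_sum_le_sum_abs _ _).trans (Finset.sum_le_sum fun x _ => ?_)
  rw [abs_mul]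
  exact mul_le_mul (h _) (h' _) (abs_nonneg _) ((abs_nonneg _).trans (h _))

lemma cbd_pow {A B : ℤ[X]} (h : cbdDom A B) (n : ℕ) : cbdDom (A ^ n) (B ^ n) := by
  induction n with
  | zero =>
    intro j
    rw [pow_zero, pow_zero, coeff_one]
    split_ifs <;> simp
  | succ n ih =>
    rw [pow_succ, pow_succ]
    exact cbd_mul ih h

lemma cbd_lin (c : ℤ) (hc : 0 ≤ c) : cbdDom (X - C c) (X + C c) := by
  intro j
  rw [coeff_sub, coeff_add, coeff_X, coeff_C]
  split_ifs with h1 h2 h2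
  · omega
  · simp
  · simp [abs_of_nonneg hc]
  · simp

lemma cbd_eval {A B : ℤ[X]} (h : cbdDom A B) (j : ℕ) : |A.coeff j| * 7 ^ j ≤ B.eval 7 := by
  have hB : ∀ i, 0 ≤ B.coeff i := fun i => (abs_nonneg _).trans (h i)
  have h1 : |A.coeff j| * 7 ^ j ≤ B.coeff j * 7 ^ j :=
    mul_le_mul_of_nonneg_right (h j) (by positivity)
  refine h1.trans ?_
  rw [eval_eq_sum_range]
  by_cases hj : j ≤ B.natDegree
  · exact Finset.single_le_sum (f := fun i => B.coeff i * 7 ^ i)
      (fun i _ => mul_nonneg (hB i) (by positivity)) (Finset.mem_range.2 (by omega))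
  · rw [coeff_eq_zero_of_natDegree_lt (by omega), zero_mul]
    exact Finset.sum_nonneg fun i _ => mul_nonneg (hB i) (by positivity)

/-- Row CBD. -/
theorem CBD_thm : CBDStmt := by
  intro n j
  have h1 : cbdDom Pz ((X + C 6) ^ 3 * (X + C 8) ^ 2 * (X + C 9)) := by
    unfold Pz
    exact cbd_mul (cbd_mul (cbd_pow (cbd_lin 6 (by norm_num)) 3)
      (cbd_pow (cbd_lin 8 (by norm_num)) 2)) (cbd_lin 9 (by norm_num))
  have h2 := cbd_eval (cbd_pow h1 n) j
  refine h2.trans (le_of_eq ?_)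
  rw [eval_pow]
  congr 1
  simp only [eval_mul, eval_pow, eval_add, eval_X, eval_C]
  norm_num

end Pool.STN
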