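import Pool.Agent.H78.STN.Stmts

/-!
# Board `stn`, row ITP: interpolation
-/

set_option autoImplicit false

open Polynomial

namespace Pool.STN

lemma itp_der (A B : ℚ[X]) (m : ℕ) : B ^ m ∣ derivative (A * B ^ (m + 1)) := by
  rw [derivative_mul, derivative_pow_succ]
  refine dvd_add ?_ ?_
  · exact Dvd.dvd.mul_left ⟨B, pow_succ B m⟩ _
  · exact Dvd.dvd.mul_left (Dvd.dvd.mul_right (Dvd.dvd.mul_left (dvd_refl _) _) _) _

lemma itp_cop (x y : ℚ) (h : x ≠ y) (m n : ℕ) :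
    IsCoprime ((X - C x : ℚ[X]) ^ m) ((X - C y : ℚ[X]) ^ n) := by
  refine IsCoprime.pow ?_
  exact isCoprime_X_sub_C_of_isUnit_sub (IsUnit.mk0 _ (sub_ne_zero.2 h))

lemma itp_main (x y z : ℚ) (hxy : x ≠ y) (hxz : x ≠ z) (hyz : y ≠ z) (l m n : ℕ) :
    ∃ H q : ℚ[X], derivative H = ((X - C x) ^ l * (X - C y) ^ m * (X - C z) ^ n) * q ∧
      H.eval x = 0 ∧ H.eval y = 0 ∧ H.eval z = 1 := by
  have h1 : IsCoprime ((X - C x : ℚ[X]) ^ (l + 1) * (X - C y) ^ (m + 1)) ((X - C z) ^ (n + 1)) :=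
    IsCoprime.mul_left (itp_cop x z hxz _ _) (itp_cop y z hyz _ _)
  obtain ⟨a, b, hab⟩ := h1
  have d1 : (X - C x : ℚ[X]) ^ l ∣ derivative (a * ((X - C x) ^ (l + 1) * (X - C y) ^ (m + 1))) := by
    have e : a * ((X - C x : ℚ[X]) ^ (l + 1) * (X - C y) ^ (m + 1)) =
        (a * (X - C y) ^ (m + 1)) * (X - C x) ^ (l + 1) := by ring
    rw [e]
    exact itp_der _ _ _
  have d2 : (X - C y : ℚ[X]) ^ m ∣ derivative (a * ((X - C x) ^ (l + 1) * (X - C y) ^ (m + 1))) := by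
    have e : a * ((X - C x : ℚ[X]) ^ (l + 1) * (X - C y) ^ (m + 1)) =
        (a * (X - C x) ^ (l + 1)) * (X - C y) ^ (m + 1) := by ring
    rw [e]
    exact itp_der _ _ _
  have d3 : (X - C z : ℚ[X]) ^ n ∣ derivative (a * ((X - C x) ^ (l + 1) * (X - C y) ^ (m + 1))) := by
    have e : a * ((X - C x : ℚ[X]) ^ (l + 1) * (X - C y) ^ (m + 1)) =
        1 - b * (X - C z) ^ (n + 1) := by rw [← hab]; ring
    rw [e, derivative_sub, derivative_one, zero_sub, dvd_neg]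
    exact itp_der _ _ _
  have d4 : (X - C x : ℚ[X]) ^ l * (X - C y) ^ m ∣
      derivative (a * ((X - C x) ^ (l + 1) * (X - C y) ^ (m + 1))) :=
    (itp_cop x y hxy l m).mul_dvd d1 d2
  have d5 : (X - C x : ℚ[X]) ^ l * (X - C y) ^ m * (X - C z) ^ n ∣
      derivative (a * ((X - C x) ^ (l + 1) * (X - C y) ^ (m + 1))) :=
    (IsCoprime.mul_left (itp_cop x z hxz l n) (itp_cop y z hyz m n)).mul_dvd d4 d3
  obtain ⟨q, hq⟩ := d5
  refine ⟨_, q, hq, ?_, ?_, ?_⟩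
  · simp
  · simp
  · have e := congrArg (eval z) hab
    simp only [eval_add, eval_mul, eval_pow, eval_sub, eval_X, eval_C, sub_self, eval_one] at e
    rw [eval_mul, eval_mul, eval_pow, eval_pow, eval_sub, eval_sub, eval_X, eval_C, eval_C, ← e]
    rw [zero_pow (Nat.succ_ne_zero n)]
    ring

/-- Row ITP. -/
theorem ITP_thm : ITPStmt := by
  intro n u v huv
  have hP : Pq ^ n = (X - C 6) ^ (3 * n) * (X - C 8) ^ (2 * n) * (X - C 9) ^ n := by
    unfold Pq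
    rw [mul_pow, mul_pow, ← pow_mul, ← pow_mul]
  by_cases hv : v = 0
  · obtain ⟨H, q, h1, h2, h3, h4⟩ := itp_main 8 9 6 (by norm_num) (by norm_num) (by norm_num)
      (2 * n) n (3 * n)
    refine ⟨H, q, ?_, ?_⟩
    · rw [hP, h1]
      ring
    · rw [h2, h3, h4, hv]
      have hu : u ≠ 0 := huv.resolve_right (fun h => h hv)
      have hu' : (u : ℚ) ≠ 0 := by exact_mod_cast hu
      simpa using hu
  · obtain ⟨H, q, h1, h2, h3, h4⟩ := itp_main 6 8 9 (by norm_num) (by norm_num) (by norm_num)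
      (3 * n) (2 * n) n
    refine ⟨H, q, ?_, ?_⟩
    · rw [hP, h1]
    · rw [h2, h3, h4]
      simpa using hv

end Pool.STN
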