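import Pool.Agent.H78.STN.Stmts

/-!
# Board `stn`, row JBD: bounds for the integrals
-/

set_option autoImplicit false

namespace Pool.STN

lemma jbd_pt (hP : PBDStmt) (n i : ℕ) (hi : i ≤ 2) (x : ℝ) (h6 : 6 ≤ x) (h9 : x ≤ 9) :
    ‖gg n i x‖ ≤ 9 * (1 / 150) ^ n := by
  have hx : 0 < x := by linarith
  have h1 : |(x - 6) ^ 3 * (x - 8) ^ 2 * (x - 9)| ≤ 1 / 150 * x ^ 3 := by
    have := hP x h6 h9
    linarith
  have h2 : |(x - 6) ^ 3 * (x - 8) ^ 2 * (x - 9)| ^ n ≤ (1 / 150 * x ^ 3) ^ n :=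
    pow_le_pow_left₀ (abs_nonneg _) h1 n
  have h3 : 0 < x ^ (-3 * (n : ℤ) - 1 + i) := zpow_pos hx _
  unfold gg
  rw [Real.norm_eq_abs, abs_mul, abs_pow, abs_of_pos h3]
  refine (mul_le_mul_of_nonneg_right h2 h3.le).trans ?_
  have h4 : (1 / 150 * x ^ 3) ^ n * x ^ (-3 * (n : ℤ) - 1 + i) =
      (1 / 150) ^ n * x ^ ((i : ℤ) - 1) := by
    rw [mul_pow, ← pow_mul, mul_assoc, ← zpow_natCast x (3 * n), ← zpow_add₀ hx.ne']
    congr 2
    push_cast
    ring
  rw [h4, mul_comm]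
  refine mul_le_mul_of_nonneg_right ?_ (by positivity)
  have h5 : x ^ ((i : ℤ) - 1) ≤ x ^ (1 : ℤ) :=
    zpow_le_zpow_right₀ (by linarith) (by omega)
  rw [zpow_one] at h5
  linarith

/-- Row JBD. -/
theorem JBD_thm (h1 : PBDStmt) : JBDStmt := by
  intro n i hi
  constructor
  · have h := intervalIntegral.norm_integral_le_of_norm_le_const (a := (6 : ℝ)) (b := 8)
      (f := gg n i) (C := 9 * (1 / 150) ^ n) (fun x hx => by
        rw [Set.uIoc_of_le (by norm_num)] at hx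
        exact jbd_pt h1 n i hi x (by linarith [hx.1]) (by linarith [hx.2]))
    rw [Real.norm_eq_abs] at h
    refine h.trans (le_of_eq ?_)
    norm_num
    ring
  · have h := intervalIntegral.norm_integral_le_of_norm_le_const (a := (8 : ℝ)) (b := 9)
      (f := gg n i) (C := 9 * (1 / 150) ^ n) (fun x hx => by
        rw [Set.uIoc_of_le (by norm_num)] at hx
        exact jbd_pt h1 n i hi x (by linarith [hx.1]) (by linarith [hx.2]))
    rw [Real.norm_eq_abs] at h
    refine h.trans (le_of_eq ?_)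
    norm_num

end Pool.STN
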