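import Pool.Agent.H78.STN.Stmts3

/-!
# Board `sto`, row CHB: the number of descending steps
-/

set_option autoImplicit false

open Finset Pool.Agent.H40.COL

namespace Pool.STN

lemma h89chb_F (x : ℕ) (hx : 2 ≤ x) : (x % 3 = 0 ∧ 3 * F x = 2 * x ∧ F x < x ∧ 2 ∣ F x) ∨
    (x % 3 ≠ 0 ∧ x < F x) := by
  rcases (by omega : x % 3 = 0 ∨ x % 3 = 1 ∨ x % 3 = 2) with h0 | h0 | h0
  · left
    have e : F x = 2 * (x / 3) := by
      unfold F
      rw [if_pos h0]
    rw [e]
    refine ⟨h0, by omega, by omega, ⟨x / 3, rfl⟩⟩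
  · right
    have e : F x = (4 * x - 1) / 3 := by
      unfold F
      rw [if_neg (by omega), if_neg (by omega)]
    rw [e]
    omega
  · right
    have e : F x = (4 * x + 1) / 3 := by
      unfold F
      rw [if_neg (by omega), if_pos h0]
    rw [e]
    omega

lemma h89chb_log3 : Real.log 3 ≤ 8 / 5 * Real.log 2 := by
  have h1 : Real.log ((3 : ℝ) ^ 5) ≤ Real.log ((2 : ℝ) ^ 8) :=
    Real.log_le_log (by norm_num) (by norm_num)
  rw [Real.log_pow, Real.log_pow] at h1
  push_cast at h1
  linarith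

/-- Row CHB. -/
theorem CHB_thm : CHBStmt := by
  intro m0 k K hm0 hk hper hmin hK
  obtain ⟨x, hx⟩ : ∃ x : ℕ → ℕ, x = fun j => F^[j] m0 := ⟨_, rfl⟩
  have hxj : ∀ j, F^[j] m0 = x j := fun j => by rw [hx]
  have hxs : ∀ j, x (j + 1) = F (x j) := by
    intro j
    rw [← hxj, ← hxj]
    exact Function.iterate_succ_apply' F j m0
  have hx2 : ∀ j, 2 ≤ x j := fun j => by
    rw [← hxj]
    exact hm0.trans (hmin j)
  have hxm : ∀ j, m0 ≤ x j := fun j => by
    rw [← hxj]
    exact hmin j
  have hx0 : x 0 = m0 := by rw [← hxj]; rfl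
  have hxk : x k = m0 := by rw [← hxj]; exact hper
  have hm3 : m0 % 3 ≠ 0 := by
    rcases h89chb_F m0 hm0 with ⟨_, _, h, _⟩ | ⟨h, _⟩
    · exfalso
      have h1 := hxm 1
      have h2 := hxs 0
      rw [hx0] at h2
      rw [Nat.zero_add] at h2
      omega
    · exact h
  have hlog0 : 0 ≤ Real.log m0 := Real.log_natCast_nonneg m0
  have hlog2 : 0 < Real.log 2 := Real.log_pos (by norm_num)
  obtain ⟨Ls, hLs⟩ : ∃ Ls : ℕ → ℕ, Ls = fun j => ∑ i ∈ Ico j k,
      (if x i % 3 = 0 ∧ x (i + 1) % 3 ≠ 0 then 1 else 0) := ⟨_, rfl⟩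
  obtain ⟨Ds, hDs⟩ : ∃ Ds : ℕ → ℕ, Ds = fun j => ∑ i ∈ Ico j k,
      (if x i % 3 = 0 then 1 else 0) := ⟨_, rfl⟩
  have hLk : Ls k = 0 := by
    rw [hLs]
    simp
  have hDk : Ds k = 0 := by
    rw [hDs]
    simp
  have hLj : ∀ j < k, Ls j = (if x j % 3 = 0 ∧ x (j + 1) % 3 ≠ 0 then 1 else 0) + Ls (j + 1) := by
    intro j hj
    rw [hLs]
    exact sum_eq_sum_Ico_succ_bot hj _
  have hDj : ∀ j < k, Ds j = (if x j % 3 = 0 then 1 else 0) + Ds (j + 1) := by
    intro j hj
    rw [hDs]
    exact sum_eq_sum_Ico_succ_bot hj _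
  have key : ∀ s, s ≤ k → ∃ b w n : ℕ, x (k - s) * 2 ^ b = 3 ^ b * w ∧ 2 ^ b ∣ w ∧ 1 ≤ w ∧
      (b = 0 ↔ x (k - s) % 3 ≠ 0) ∧ n + (if b = 0 then 0 else 1) = Ls (k - s) ∧
      Real.log w ≤ (8 / 5) ^ n * Real.log m0 ∧
      (Ds (k - s) : ℝ) * Real.log 2 ≤
        b * Real.log 2 + (∑ i ∈ range n, ((8 : ℝ) / 5) ^ i) * Real.log m0 := by
    intro s
    induction s with
    | zero =>
      intro _
      refine ⟨0, m0, 0, ?_, ?_, by omega, ?_, ?_, ?_, ?_⟩
      · rw [Nat.sub_zero, hxk]
        simp
      · simp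
      · rw [Nat.sub_zero, hxk]
        simp [hm3]
      · rw [Nat.sub_zero, hLk]
        rfl
      · simp
      · rw [Nat.sub_zero, hDk]
        simp
    | succ s ih =>
      intro hs
      obtain ⟨b, w, n, i1, i2, i3, i4, i5, i6, i7⟩ := ih (by omega)
      obtain ⟨j, hj⟩ : ∃ j, j = k - (s + 1) := ⟨_, rfl⟩
      have hj1 : k - s = j + 1 := by omega
      have hjk : j < k := by omega
      rw [← hj]
      rw [hj1] at i1 i4 i5 i7
      have hL := hLj j hjk
      have hD := hDj j hjk
      rcases h89chb_F (x j) (hx2 j) with ⟨h0, h1, -, h2⟩ | ⟨h0, h1⟩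
      · -- a descending step
        rw [← hxs] at h1 h2
        refine ⟨b + 1, w, n, ?_, ?_, i3, ?_, ?_, i6, ?_⟩
        · calc x j * 2 ^ (b + 1) = (2 * x j) * 2 ^ b := by ring
            _ = 3 * (x (j + 1) * 2 ^ b) := by rw [← h1]; ring
            _ = 3 ^ (b + 1) * w := by rw [i1]; ring
        · have h3 : 2 ^ (b + 1) ∣ 3 ^ b * w := by
            rw [← i1, pow_succ, mul_comm]
            exact mul_dvd_mul h2 (dvd_refl _) |>.trans (by rw [mul_comm])
          exact Nat.Coprime.dvd_of_dvd_mul_left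
            (Nat.Coprime.pow _ _ (by norm_num)) h3
        · simp [h0]
        · rw [hL, ← i5]
          by_cases hb : b = 0
          · have h4 := i4.1 hb
            simp [h0, h4, hb]
            omega
          · have h4 : x (j + 1) % 3 = 0 := by
              by_contra h5
              exact hb (i4.2 h5)
            simp [h0, h4, hb]
        · rw [hD, if_pos h0]
          push_cast
          linarith
      · -- an ascending step
        rw [← hxs] at h1
        have hD' : Ds j = Ds (j + 1) := by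
          rw [hD, if_neg h0, Nat.zero_add]
        have hL' : Ls j = Ls (j + 1) := by
          rw [hL, if_neg (fun h => h0 h.1), Nat.zero_add]
        have h3 : Real.log (x j) ≤ Real.log (x (j + 1)) :=
          Real.log_le_log (by exact_mod_cast (by have := hx2 j; omega : 0 < x j))
            (by exact_mod_cast h1.le)
        by_cases hb : b = 0
        · subst hb
          have h4 : x (j + 1) = w := by simpa using i1
          refine ⟨0, x j, n, by simp, by simp, by have := hx2 j; omega, by simp [h0], ?_, ?_, ?_⟩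
          · rw [hL', ← i5]
          · rw [h4] at h3
            exact h3.trans i6
          · rw [hD']
            exact i7
        · rw [if_neg hb] at i5
          have hw0 : (0 : ℝ) < w := by exact_mod_cast i3
          have h4 : (2 : ℝ) ^ b ≤ w := by exact_mod_cast Nat.le_of_dvd i3 i2
          have h5 : (b : ℝ) * Real.log 2 ≤ Real.log w := by
            rw [← Real.log_pow]
            exact Real.log_le_log (by positivity) h4
          have h6 : Real.log (x (j + 1)) + b * Real.log 2 = b * Real.log 3 + Real.log w := by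
            have hxp : (0 : ℝ) < x (j + 1) := by
              exact_mod_cast (by have := hx2 (j + 1); omega : 0 < x (j + 1))
            rw [← Real.log_pow, ← Real.log_pow, ← Real.log_mul hxp.ne' (by positivity),
              ← Real.log_mul (by positivity) hw0.ne']
            congr 1
            exact_mod_cast i1
          have h7 : (b : ℝ) * Real.log 3 ≤ b * (8 / 5 * Real.log 2) :=
            mul_le_mul_of_nonneg_left h89chb_log3 (Nat.cast_nonneg b)
          refine ⟨0, x j, n + 1, by simp, by simp, by have := hx2 j; omega, by simp [h0], ?_, ?_, ?_⟩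
          · rw [hL', ← i5]
            simp
          · have h8 : Real.log (x j) ≤ 8 / 5 * Real.log w := by linarith
            rw [pow_succ]
            nlinarith
          · rw [hD', sum_range_succ, add_mul]
            push_cast
            linarith
  obtain ⟨b, w, n, -, -, -, i4, i5, -, i7⟩ := key k le_rfl
  rw [Nat.sub_self] at i4 i5 i7
  have hb : b = 0 := i4.2 (by rw [hx0]; exact hm3)
  rw [if_pos hb, Nat.add_zero] at i5
  rw [hb, Nat.cast_zero, zero_mul, zero_add] at i7
  have hdn : dnc m0 k = Ds 0 := by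
    unfold dnc
    rw [card_filter, hDs, range_eq_Ico]
    exact sum_congr rfl fun i _ => by rw [hxj]
  have hlm : lm F m0 k = Ls 0 := by
    unfold lm
    rw [card_filter, hLs, range_eq_Ico]
    refine sum_congr rfl fun i _ => ?_
    rw [hxj, hxj, hxj]
    have a1 : x (i + 1) < x i ↔ x i % 3 = 0 := by
      rw [hxs]
      rcases h89chb_F (x i) (hx2 i) with ⟨h0, -, h1, -⟩ | ⟨h0, h1⟩
      · exact ⟨fun _ => h0, fun _ => h1⟩
      · exact ⟨fun h => by omega, fun h => absurd h h0⟩
    have a2 : x (i + 1) < x (i + 2) ↔ x (i + 1) % 3 ≠ 0 := by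
      rw [hxs (i + 1)]
      rcases h89chb_F (x (i + 1)) (hx2 (i + 1)) with ⟨h0, -, h1, -⟩ | ⟨h0, h1⟩
      · exact ⟨fun h => by omega, fun h => absurd h0 h⟩
      · exact ⟨fun _ => h0, fun _ => h1⟩
    exact if_congr (and_congr a1 a2) rfl rfl
  rw [hdn]
  refine i7.trans (mul_le_mul_of_nonneg_right ?_ hlog0)
  refine sum_le_sum_of_subset_of_nonneg ?_ (fun i _ _ => by positivity)
  rw [range_subset_range]
  rw [hlm] at hK
  omega

end Pool.STN
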