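import Pool.Agent.H78.STN.Stmts

/-!
# Board `stn`, row CSQ: periodic sequences with one descent
-/

set_option autoImplicit false

namespace Pool.STN

/-- Row CSQ. -/
theorem CSQ_thm : CSQStmt := by
  intro d _ k hk hper ht hf hcard
  have hper' : ∀ n i, d (i + k * n) ↔ d i := by
    intro n
    induction n with
    | zero =>
      intro i
      rw [Nat.mul_zero, Nat.add_zero]
    | succ n ih =>
      intro i
      rw [Nat.mul_succ, ← Nat.add_assoc, hper, ih]
  have hmod : ∀ i c, d (i % k + c) ↔ d (i + c) := by
    intro i c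
    have h := hper' (i / k) (i % k + c)
    have e : i % k + c + k * (i / k) = i + c := by
      have := Nat.mod_add_div i k
      omega
    rw [← h, e]
  -- a descent
  obtain ⟨j₀, h1, h2⟩ : ∃ j, d j ∧ ¬ d (j + 1) := by
    obtain ⟨i₁, hi₁⟩ := ht
    obtain ⟨i₂, hi₂⟩ := hf
    by_contra hcon
    push Not at hcon
    have h3 : ∀ n, d (i₁ + n) := by
      intro n
      induction n with
      | zero => exact hi₁
      | succ n ih => exact hcon _ ih
    apply hi₂
    rw [← hper' i₁ i₂]
    have h4 : i₁ ≤ k * i₁ := Nat.le_mul_of_pos_left _ hk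
    have h5 : i₂ + k * i₁ = i₁ + (i₂ + k * i₁ - i₁) := by omega
    rw [h5]
    exact h3 _
  obtain ⟨s, hs⟩ : ∃ s, s = j₀ + 1 := ⟨_, rfl⟩
  rw [← hs] at h2
  have hk1 : d (s + (k - 1)) := by
    have e : s + (k - 1) = j₀ + k := by omega
    rw [e, hper]
    exact h1
  have hex : ∃ a, d (s + a) := ⟨k - 1, hk1⟩
  obtain ⟨a, ha1, ha2⟩ : ∃ a, d (s + a) ∧ ∀ i < a, ¬ d (s + i) :=
    ⟨Nat.find hex, Nat.find_spec hex, fun i hi => Nat.find_min hex hi⟩
  have ha0 : 1 ≤ a := by
    rcases Nat.eq_zero_or_pos a with h | h
    · rw [h, Nat.add_zero] at ha1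
      exact absurd ha1 h2
    · exact h
  have hak : a < k := by
    by_contra hcon
    exact ha2 (k - 1) (by omega) hk1
  refine ⟨s, a, ha0, hak, ha2, ?_⟩
  have key : ∀ n, a + n < k → d (s + (a + n)) := by
    intro n
    induction n with
    | zero => intro _; exact ha1
    | succ n ih =>
      intro hn
      by_contra hcon
      have h3 := ih (by omega)
      have h4 : j₀ % k ∈ (Finset.range k).filter fun j => d j ∧ ¬ d (j + 1) := by
        rw [Finset.mem_filter, Finset.mem_range]
        refine ⟨Nat.mod_lt _ hk, ?_, ?_⟩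
        · have := hmod j₀ 0
          rw [Nat.add_zero, Nat.add_zero] at this
          exact this.2 h1
        · rw [hmod, ← hs]
          exact h2
      have h5 : (s + (a + n)) % k ∈ (Finset.range k).filter fun j => d j ∧ ¬ d (j + 1) := by
        rw [Finset.mem_filter, Finset.mem_range]
        refine ⟨Nat.mod_lt _ hk, ?_, ?_⟩
        · have := hmod (s + (a + n)) 0
          rw [Nat.add_zero, Nat.add_zero] at this
          exact this.2 h3
        · rw [hmod]
          exact hcon
      have h6 : j₀ % k ≠ (s + (a + n)) % k := by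
        intro h7
        have h8 : j₀ + 0 ≡ j₀ + (a + n + 1) [MOD k] := by
          have e : s + (a + n) = j₀ + (a + n + 1) := by omega
          rw [e] at h7
          exact h7
        have h9 := Nat.ModEq.add_left_cancel' j₀ h8
        have h10 : k ∣ a + n + 1 := (Nat.modEq_zero_iff_dvd.1 h9.symm)
        have h11 := Nat.le_of_dvd (by omega) h10
        omega
      have h12 := Finset.one_lt_card.2 ⟨_, h4, _, h5, h6⟩
      omega
  intro i hi hik
  have h3 := key (i - a) (by omega)
  have e : a + (i - a) = i := by omega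
  rwa [e] at h3

end Pool.STN
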