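import Pool.Agent.H78.STN.Stmts2

/-!
# Board `sto`, row ISF
-/

set_option autoImplicit false

open Finset Pool.Agent.H40.COL

namespace Pool.STN

/-- Row ISF. -/
theorem ISF_thm : ISFStmt := by
  unfold ISFStmt
  constructor
  all_goals
    intro n hn
    unfold F
    split_ifs <;> omega

end Pool.STN
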