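import Pool.Agent.H78.STN.Stmts2

/-!
# Board `sto`, row SIM: correctness of the simulation
-/

set_option autoImplicit false

open Finset Pool.Agent.H40.COL

namespace Pool.STN

lemma h89sim_aux (m0 : ℕ) (h2 : m0 % 2 = 0) (h3 : m0 % 3 ≠ 0) : ∀ n s c : ℕ,
    (∀ j, 1 ≤ j → j ≤ s → F^[j] m0 ≠ m0) →
    3 ≤ ((range s).filter fun j => F^[j] m0 % 3 = 0 ∧ F^[j + 1] m0 % 3 ≠ 0).card + c →
    sim n m0 (F^[s] m0) c = true → esc m0 := by
  intro n
  induction n with
  | zero =>
    intro s c _ _ h
    simp [sim] at h
  | succ n ih =>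
    intro s c hs hc h
    obtain ⟨x, hx⟩ : ∃ x, x = F^[s] m0 := ⟨_, rfl⟩
    have hF : F^[s + 1] m0 = F x := by
      rw [hx]
      exact Function.iterate_succ_apply' F s m0
    rw [← hx] at h
    have hne : F x ≠ m0 → ∀ j, 1 ≤ j → j ≤ s + 1 → F^[j] m0 ≠ m0 := by
      intro hne j hj1 hj2
      rcases Nat.lt_or_ge j (s + 1) with h' | h'
      · exact hs j hj1 (by omega)
      · have e : j = s + 1 := by omega
        rw [e, hF]
        exact hne
    have hnext : ∀ c', F x ≠ m0 →
        3 ≤ ((range (s + 1)).filter fun j => F^[j] m0 % 3 = 0 ∧ F^[j + 1] m0 % 3 ≠ 0).card + c' →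
        sim n m0 (F x) c' = true → esc m0 := by
      intro c' h4 h5 h6
      exact ih (s + 1) c' (hne h4) h5 (by rw [hF]; exact h6)
    have hmono : ((range s).filter fun j => F^[j] m0 % 3 = 0 ∧ F^[j + 1] m0 % 3 ≠ 0).card ≤
        ((range (s + 1)).filter fun j => F^[j] m0 % 3 = 0 ∧ F^[j + 1] m0 % 3 ≠ 0).card :=
      card_le_card (filter_subset_filter _ (range_subset_range.2 (Nat.le_succ s)))
    rcases (by omega : x % 3 = 0 ∨ x % 3 = 1 ∨ x % 3 = 2) with h0 | h0 | h0
    · have hFx : F x = 2 * (x / 3) := by
        unfold F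
        rw [if_pos h0]
      rw [sim.eq_def] at h
      simp only [h0] at h
      by_cases hb : 2 * (x / 3) % 3 = 0
      · have e : Nat.beq (2 * (x / 3) % 3) 0 = true := by
          rw [hb]
          rfl
        rw [e, cond_true] at h
        refine hnext c ?_ (by omega) (by rw [hFx]; exact h)
        rw [hFx]
        intro hh
        rw [← hh] at h3
        exact h3 hb
      · have e : Nat.beq (2 * (x / 3) % 3) 0 = false :=
          Bool.eq_false_iff.2 (fun h => hb (Nat.eq_of_beq_eq_true h))
        rw [e, cond_false] at h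
        by_cases hm : 2 * (x / 3) = m0
        · have e2 : Nat.beq (2 * (x / 3)) m0 = true := by
            rw [hm]
            exact Nat.beq_refl m0
          rw [e2, cond_true] at h
          exact absurd h (by simp)
        · have e2 : Nat.beq (2 * (x / 3)) m0 = false :=
            Bool.eq_false_iff.2 (fun h => hm (Nat.eq_of_beq_eq_true h))
          rw [e2, cond_false] at h
          have hcard : ((range s).filter fun j => F^[j] m0 % 3 = 0 ∧ F^[j + 1] m0 % 3 ≠ 0).card + 1 ≤
              ((range (s + 1)).filter fun j =>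
                F^[j] m0 % 3 = 0 ∧ F^[j + 1] m0 % 3 ≠ 0).card := by
            rw [range_add_one, filter_insert, if_pos ⟨by rw [← hx]; exact h0, by
              rw [hF, hFx]
              exact hb⟩, card_insert_of_notMem (fun h7 =>
              absurd (mem_range.1 (mem_filter.1 h7).1) (lt_irrefl s))]
          have hm' : F x ≠ m0 := by
            rw [hFx]
            exact hm
          cases c with
          | zero => exact ⟨s + 1, hne hm', by omega⟩
          | succ c =>
            refine hnext c hm' (by omega) ?_
            rw [hFx]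
            exact h
    · have hFx : F x = (4 * x - 1) / 3 := by
        unfold F
        rw [if_neg (by omega), if_neg (by omega)]
      rw [sim.eq_def] at h
      simp only [h0] at h
      refine hnext c ?_ (by omega) (by rw [hFx]; exact h)
      rw [hFx]
      omega
    · have hFx : F x = (4 * x + 1) / 3 := by
        unfold F
        rw [if_neg (by omega), if_pos h0]
      rw [sim.eq_def] at h
      simp only [h0] at h
      refine hnext c ?_ (by omega) (by rw [hFx]; exact h)
      rw [hFx]
      omega

/-- Row SIM. -/
theorem SIM_thm : SIMStmt := by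
  intro n m0 _ h2 h3 h
  refine h89sim_aux m0 h2 h3 n 0 3 ?_ (by simp) h
  intro j h4 h5
  omega

end Pool.STN
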